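import Mathlib
import Pool.Agent.V1199.ModTop

open Set Filter Topology
open Pool.Agent.V1199.ModTop
open scoped ENNReal

namespace Pool.Agent.Results.MP_106cb8_an.NotRegular

/-- Convex left-continuous modulars. -/
structure IsConvexModular {X : Type} [AddCommGroup X] [Module ℝ X] (ρ : X → ℝ≥0∞) : Prop where
  zero_iff : ∀ u, ρ u = 0 ↔ u = 0
  abs_one : ∀ (α : ℝ) (u : X), |α| = 1 → ρ (α • u) = ρ u
  convex : ∀ (α : ℝ) (u v : X), 0 ≤ α → α ≤ 1 →
    ρ (α • u + (1 - α) • v) ≤ ENNReal.ofReal α * ρ u + ENNReal.ofReal (1 - α) * ρ v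
  left_cont : ∀ (u : X) (l₀ : ℝ), 0 < l₀ →
    Tendsto (fun l : ℝ => ρ (l • u)) (𝓝[<] l₀) (𝓝 (ρ (l₀ • u)))

theorem isConvexModular : IsConvexModular (rho pe) where
  zero_iff u := by
    constructor
    · exact rho_eq_zero pe_ge
    · rintro rfl
      unfold rho
      have h : ∀ j, ENNReal.ofReal (|(0 : ℕ → ℝ) j| ^ pe j) = 0 := by
        intro j
        rw [Pi.zero_apply, abs_zero, Real.zero_rpow (by linarith [pe_ge j]), ENNReal.ofReal_zero]
      simp_rw [h]
      exact tsum_zero
  abs_one α u h := by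
    unfold rho
    simp [abs_mul, h]
  convex α u v h0 h1 := by
    unfold rho
    rw [← ENNReal.tsum_mul_left, ← ENNReal.tsum_mul_left, ← ENNReal.tsum_add]
    refine ENNReal.tsum_le_tsum (fun n => ?_)
    rw [← ENNReal.ofReal_mul h0, ← ENNReal.ofReal_mul (by linarith),
      ← ENNReal.ofReal_add (mul_nonneg h0 (by positivity))
        (mul_nonneg (by linarith) (by positivity))]
    apply ENNReal.ofReal_le_ofReal
    have e1 : |(α • u + (1 - α) • v) n| ≤ α * |u n| + (1 - α) * |v n| := by
      have e2 : (α • u + (1 - α) • v) n = α * u n + (1 - α) * v n := rfl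
      rw [e2]
      calc |α * u n + (1 - α) * v n| ≤ |α * u n| + |(1 - α) * v n| := abs_add_le _ _
        _ = α * |u n| + (1 - α) * |v n| := by
          rw [abs_mul, abs_mul, abs_of_nonneg h0, abs_of_nonneg (by linarith : 0 ≤ 1 - α)]
    calc |(α • u + (1 - α) • v) n| ^ pe n ≤ (α * |u n| + (1 - α) * |v n|) ^ pe n :=
          Real.rpow_le_rpow (abs_nonneg _) e1 (by linarith [pe_ge n])
      _ ≤ α * |u n| ^ pe n + (1 - α) * |v n| ^ pe n := by
          have := (convexOn_rpow (pe_ge n)).2 (mem_Ici.mpr (abs_nonneg (u n)))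
            (mem_Ici.mpr (abs_nonneg (v n))) h0 (by linarith : 0 ≤ 1 - α) (by ring)
          simpa using this
  left_cont u l₀ hl₀ := by
    rw [tendsto_order]
    constructor
    · intro c hc
      unfold rho at hc
      rw [ENNReal.tsum_eq_iSup_sum, lt_iSup_iff] at hc
      obtain ⟨s, hs⟩ := hc
      have hcont : Continuous (fun l : ℝ => ∑ j ∈ s, ENNReal.ofReal (|(l • u) j| ^ pe j)) := by
        refine continuous_finset_sum _ (fun j _ => ?_)
        refine ENNReal.continuous_ofReal.comp ?_
        have h1 : Continuous (fun l : ℝ => |(l • u) j|) := by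
          have : (fun l : ℝ => |(l • u) j|) = fun l => |l * u j| := rfl
          rw [this]
          fun_prop
        exact h1.rpow_const (fun l => Or.inr (by linarith [pe_ge j]))
      have h2 : ∀ᶠ l in 𝓝 l₀, c < ∑ j ∈ s, ENNReal.ofReal (|(l • u) j| ^ pe j) :=
        hcont.continuousAt.eventually (lt_mem_nhds hs)
      filter_upwards [h2.filter_mono nhdsWithin_le_nhds] with l hl
      exact lt_of_lt_of_le hl (ENNReal.sum_le_tsum s)
    · intro c hc
      have h1 : ∀ᶠ l : ℝ in 𝓝[<] l₀, 0 < l :=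
        (lt_mem_nhds hl₀).filter_mono nhdsWithin_le_nhds
      filter_upwards [h1, self_mem_nhdsWithin] with l hl hl2
      refine lt_of_le_of_lt (rho_mono pe_ge (fun n => ?_)) hc
      rw [Pi.smul_apply, Pi.smul_apply, smul_eq_mul, smul_eq_mul, abs_mul, abs_mul,
        abs_of_pos hl, abs_of_pos hl₀]
      exact mul_le_mul_of_nonneg_right (le_of_lt hl2) (abs_nonneg _)

/-- There is a convex left-continuous modular whose modular topology is not regular. -/
theorem result : ∃ (X : Type) (_ : AddCommGroup X) (_ : Module ℝ X) (ρ : X → ℝ≥0∞),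
    IsConvexModular ρ ∧ ∃ (F : Set X) (x : X), NotSeparated ρ F x :=
  ⟨ℕ → ℝ, inferInstance, inferInstance, rho pe, isConvexModular, F, y (fun _ => true), main _⟩

end Pool.Agent.Results.MP_106cb8_an.NotRegular
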